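import Pool.Agent.W998.KG.Stm3

set_option autoImplicit false

/-!
# Andrasfai's bound for the graph of a tree over an odd cycle (part AND)
-/

namespace Pool.Agent.W2.KG

open Pool.Agent.Results.MP_633d19_co.SmallDegree
open Pool.Agent.Results.MP_633d19_co.SmallDegree.MGraph
open Pool.Agent.W998.KG

/-- Walks of length `m` for a relation. -/
def W (R : ℕ → ℕ → Prop) : ℕ → ℕ → ℕ → Prop
  | 0, a, b => a = b
  | m + 1, a, b => ∃ c, W R m a c ∧ R c b

theorem W_cat (R : ℕ → ℕ → Prop) (m p : ℕ) : ∀ a b c, W R m a b → W R p b c →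
    W R (m + p) a c := by
  induction p with
  | zero =>
    intro a b c h1 h2
    have h3 : b = c := h2
    rw [← h3]
    exact h1
  | succ p ih =>
    rintro a b c h1 ⟨x, h2, h3⟩
    exact ⟨x, ih a b x h1 h2, h3⟩

theorem W_one (R : ℕ → ℕ → Prop) (a b : ℕ) (h : R a b) : W R 1 a b := ⟨a, rfl, h⟩

theorem W_fun (R : ℕ → ℕ → Prop) (v : ℕ → ℕ) (L : ℕ) (h : ∀ i < L, R (v i) (v (i + 1)))
    (i p : ℕ) (hip : i + p ≤ L) : W R p (v i) (v (i + p)) := by
  induction p with
  | zero => rfl
  | succ p ih => exact ⟨v (i + p), ih (by omega), h (i + p) (by omega)⟩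

theorem fun_W (R : ℕ → ℕ → Prop) (m : ℕ) : ∀ a b, W R m a b →
    ∃ v : ℕ → ℕ, v 0 = a ∧ v m = b ∧ ∀ i < m, R (v i) (v (i + 1)) := by
  induction m with
  | zero =>
    intro a b h
    have h' : a = b := h
    exact ⟨fun _ => a, rfl, h', fun i hi => absurd hi (Nat.not_lt_zero i)⟩
  | succ m ih =>
    rintro a b ⟨c, h1, h2⟩
    obtain ⟨v, h3, h4, h5⟩ := ih a c h1
    refine ⟨fun i => if i ≤ m then v i else b, ?_, ?_, fun i hi => ?_⟩
    · simp [h3]
    · simp
    · rcases Nat.lt_or_ge i m with h6 | h6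
      · have h7 : i ≤ m := h6.le
        have h8 : i + 1 ≤ m := h6
        simp only [h7, h8, if_true]
        exact h5 i h6
      · have h7 : i = m := by omega
        subst h7
        simp only [le_refl, if_true, Nat.not_succ_le_self, if_false]
        rw [h4]
        exact h2

/-- In a shortest odd closed walk, the positions adjacent to `x` are at distance two. -/
theorem pos2 (R : ℕ → ℕ → Prop) (hsym : ∀ a b, R a b → R b a) (v : ℕ → ℕ) (L : ℕ)
    (hL : L % 2 = 1)
    (hmin : ∀ m a, m % 2 = 1 → W R m a a → L ≤ m) (h0 : v L = v 0)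
    (h : ∀ i < L, R (v i) (v (i + 1))) (x i j : ℕ) (hij : i < j) (hj : j < L)
    (hi1 : R (v i) x) (hj1 : R (v j) x) : j = i + 2 ∨ j + 2 = i + L := by
  rcases Nat.mod_two_eq_zero_or_one (j - i) with h1 | h1
  · -- the other arc is odd
    left
    have w1 : W R (L - j) (v j) (v L) := by
      have := W_fun R v L h j (L - j) (by omega)
      rwa [show j + (L - j) = L by omega] at this
    have w2 : W R i (v 0) (v i) := by
      have := W_fun R v L h 0 i (by omega)
      rwa [zero_add] at this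
    rw [h0] at w1
    have w3 := W_cat R _ _ _ _ _ (W_cat R _ _ _ _ _ (W_cat R _ _ _ _ _
      (W_one R _ _ (hsym _ _ hj1)) w1) w2) (W_one R _ _ hi1)
    have := hmin _ _ (by omega) w3
    omega
  · right
    have w1 : W R (j - i) (v i) (v j) := by
      have := W_fun R v L h i (j - i) (by omega)
      rwa [show i + (j - i) = j by omega] at this
    have w3 := W_cat R _ _ _ _ _ (W_cat R _ _ _ _ _
      (W_one R _ _ (hsym _ _ hi1)) w1) (W_one R _ _ hj1)
    have := hmin _ _ (by omega) w3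
    omega

theorem and_aux (R : ℕ → ℕ → Prop) (hsym : ∀ a b, R a b → R b a) (hirr : ∀ a, ¬ R a a)
    (htri : ∀ a b c, R a b → R b c → R c a → False) (n l a : ℕ) (hl : l % 2 = 1)
    (hla : W R l a a) (hn : ∀ a b, R a b → a ≤ n) :
    ∃ i ≤ n, ∀ A : Finset ℕ, (∀ j ∈ A, j ≤ n ∧ R i j) → 5 * A.card ≤ 2 * (n + 1) := by
  classical
  have hex : ∃ L, L % 2 = 1 ∧ ∃ a, W R L a a := ⟨l, hl, a, hla⟩
  set L := Nat.find hex with hLdef
  obtain ⟨hL, b, hb⟩ := Nat.find_spec hex
  have hmin : ∀ m a, m % 2 = 1 → W R m a a → L ≤ m := fun m a h1 h2 =>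
    Nat.find_min' hex ⟨h1, a, h2⟩
  rw [← hLdef] at hL hb
  have hL5 : 5 ≤ L := by
    by_contra hlt
    have h13 : L = 1 ∨ L = 3 := by omega
    rcases h13 with h1 | h1
    · rw [h1] at hb
      obtain ⟨c, hc, hc2⟩ := hb
      have hc' : b = c := hc
      rw [hc'] at hc2
      exact hirr c hc2
    · rw [h1] at hb
      obtain ⟨c, ⟨d, ⟨e, he, hd⟩, hc⟩, hc2⟩ := hb
      have he' : b = e := he
      rw [← he'] at hd
      exact htri b d c hd hc hc2
  obtain ⟨v, hv0, hvL, hv⟩ := fun_W R L b b hb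
  have h0 : v L = v 0 := by rw [hv0, hvL]
  have hvn : ∀ i < L, v i ≤ n := fun i hi => hn _ _ (hv i hi)
  by_contra hcon
  push Not at hcon
  have hdeg : ∀ i ∈ Finset.range L, 2 * (n + 1) + 1 ≤
      5 * (Finset.bipartiteAbove (fun i x => R (v i) x) (Finset.range (n + 1)) i).card := by
    intro i hi
    obtain ⟨A, hA, hA2⟩ := hcon (v i) (hvn i (Finset.mem_range.1 hi))
    have h1 : A ⊆ Finset.bipartiteAbove (fun i x => R (v i) x) (Finset.range (n + 1)) i := by
      intro j hj
      rw [Finset.bipartiteAbove, Finset.mem_filter, Finset.mem_range]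
      exact ⟨by have := (hA j hj).1; omega, (hA j hj).2⟩
    have h2 := Finset.card_le_card h1
    omega
  have hsum := Finset.sum_le_sum hdeg
  rw [← Finset.mul_sum, Finset.sum_card_bipartiteAbove_eq_sum_card_bipartiteBelow] at hsum
  have hbel : ∀ x ∈ Finset.range (n + 1),
      (Finset.bipartiteBelow (fun i x => R (v i) x) (Finset.range L) x).card ≤ 2 := by
    intro x _
    by_contra hlt
    rw [not_le, Finset.two_lt_card] at hlt
    obtain ⟨i, hi, j, hj, k, hk, hij, hik, hjk⟩ := hlt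
    rw [Finset.bipartiteBelow, Finset.mem_filter, Finset.mem_range] at hi hj hk
    have key : ∀ i j, i < L → j < L → R (v i) x → R (v j) x → i < j →
        j = i + 2 ∨ j + 2 = i + L := fun i j _ hj h1 h2 hij =>
      pos2 R hsym v L hL hmin h0 hv x i j hij hj h1 h2
    have k1 := key i j hi.1 hj.1 hi.2 hj.2
    have k2 := key j i hj.1 hi.1 hj.2 hi.2
    have k3 := key i k hi.1 hk.1 hi.2 hk.2
    have k4 := key k i hk.1 hi.1 hk.2 hi.2
    have k5 := key j k hj.1 hk.1 hj.2 hk.2
    have k6 := key k j hk.1 hj.1 hk.2 hj.2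
    omega
  have h3 := Finset.sum_le_sum hbel
  simp only [Finset.sum_const, Finset.card_range, smul_eq_mul] at hsum h3
  have h4 : 5 * (2 * (n + 1) + 1) ≤ L * (2 * (n + 1) + 1) := Nat.mul_le_mul_right _ hL5
  omega

theorem main : PartAND := by
  intro V E G l n y h3 hinj hl3 hl hln hcyc
  set R : ℕ → ℕ → Prop := fun i j => i ≤ n ∧ j ≤ n ∧ ∃ e, G.ends e = s(y i, y j) with hR
  have hsym : ∀ a b, R a b → R b a := by
    rintro a b ⟨h1, h2, e, he⟩
    exact ⟨h2, h1, e, by rw [he, Sym2.eq_swap]⟩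
  have hirr : ∀ a, ¬ R a a := by
    rintro a ⟨_, _, e, he⟩
    exact G.loopless e (by rw [he]; simp)
  have htri : ∀ a b c, R a b → R b c → R c a → False := by
    rintro a b c ⟨ha, hb, e1, he1⟩ ⟨_, hc, e2, he2⟩ ⟨_, _, e3, he3⟩
    have hab : y a ≠ y b := fun h => G.loopless e1 (by rw [he1, h]; simp)
    have hbc : y b ≠ y c := fun h => G.loopless e2 (by rw [he2, h]; simp)
    have hca : y c ≠ y a := fun h => G.loopless e3 (by rw [he3, h]; simp)
    refine h3 ⟨fun i => if i = 0 then y a else if i = 1 then y b else y c, ?_, ?_⟩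
    · intro i hi j hj h
      have hba : y b ≠ y a := fun h => hab h.symm
      have hcb : y c ≠ y b := fun h => hbc h.symm
      have hac : y a ≠ y c := fun h => hca h.symm
      interval_cases i <;> interval_cases j <;> simp_all
    · intro i hi
      interval_cases i
      · exact ⟨e1, by simpa using he1⟩
      · exact ⟨e2, by simpa using he2⟩
      · exact ⟨e3, by simpa using he3⟩
  have hW : W R l 0 0 := by
    have hstep : ∀ i < l - 1, R i (i + 1) := by
      intro i hi
      obtain ⟨e, he⟩ := hcyc i (by omega)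
      refine ⟨by omega, by omega, e, ?_⟩
      rw [he, nx, if_neg (by omega)]
    have h1 := W_fun R (fun i => i) (l - 1) hstep 0 (l - 1) (by omega)
    have h2 : R (l - 1) 0 := by
      obtain ⟨e, he⟩ := hcyc (l - 1) (by omega)
      refine ⟨by omega, by omega, e, ?_⟩
      rw [he, nx, if_pos (by omega)]
    simp only [zero_add] at h1
    have h4 := W_cat R _ _ _ _ _ h1 (W_one R _ _ h2)
    rwa [show l - 1 + 1 = l by omega] at h4
  obtain ⟨i, hi, h⟩ := and_aux R hsym hirr htri n l 0 hl hW (fun a b h => h.1)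
  exact ⟨i, hi, fun A hA => h A fun j hj => ⟨(hA j hj).1, hi, (hA j hj).1, (hA j hj).2⟩⟩

end Pool.Agent.W2.KG
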